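import Pool.Agent.U999.OP.Open

/-!
# Random knotoids: stackings of open polygons

Starting library.  `Pool.Agent.H867R3.Kn.Defs`: the Gauss word `G : Fin N × Bool ≃ Fin (2 N)` of a knotoid
diagram gives for every passage of a crossing its place on the way from the tail to the head; `kPoly G w` is the
normalised bracket polynomial of the diagram with the signs `w` of the crossings (a state sum in which the
number of the components of a state counts the circles and the interval).  `Pool.Agent.W642.RS.Defs`: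
`Stack N n`: the Gauss word of a curve which is divided into `n` consecutive arcs without self-crossings, any two
of which cross at most once; here the curve is open.  `D.signs h`: the signs of the crossings if the arc `i` lies
at the height `h i`.

New (`Pool.Agent.U999`): `OpenCross r i j`: the edges `i`, `j` of the open polygon with the vertices
`r 0, …, r n` (numbers of points on a circle) cross; `IsOpenPolygon r D`: the crossings of the stack `D` are
exactly the crossings of the `n` edges of this polygon; `star n k h`: the vertices `k j` modulo `n` of the star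
polygon `{n/k}`, the usual projection of the torus knot `T(n, k)`.  So `IsOpenPolygon (star (n + 1) k h) D` says
that `D` describes this projection without one of its `n + 1` edges; for `n = 2 m`, `k = m` this is the projection
of an open petal diagram with `n` petals and all crossings at the centre (every two edges without a common vertex
cross).
-/

set_option autoImplicit false

namespace Pool.Agent.Results.MP_79b4ff_gt.RandomOpenPolygons

open Finset LaurentPolynomial Pool.Agent.H832R2.JR Pool.Agent.H867R3.Kn Pool.Agent.W642.RS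
  Pool.Agent.U999.RSt Pool.Agent.U999.OP

open Classical in
/-- the probability that the normalised bracket polynomial of the knotoid diagram is `F` if the arcs are put at
the heights `1, …, n` in a uniformly random order -/
noncomputable def prob {N n : ℕ} (D : Stack N n) (F : ℤ[T;T⁻¹]) : ℝ :=
  ((univ.filter fun h : Equiv.Perm (Fin n) => kPoly D.G (D.signs h) = F).card : ℝ) /
    (n.factorial : ℝ)

theorem prob_eq {N n : ℕ} (D : Stack N n) (F : ℤ[T;T⁻¹]) :
    (TT D F : ℝ) = prob D F * (n.factorial : ℝ) := by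
  have h0 : (n.factorial : ℝ) ≠ 0 := by exact_mod_cast n.factorial_ne_zero
  have h1 : TT D F =
      (univ.filter fun h : Equiv.Perm (Fin n) => kPoly D.G (D.signs h) = F).card := by
    unfold TT
    refine congrArg Finset.card (Finset.filter_congr fun h _ => ?_)
    rw [kPoly_eq]
    exact Iff.of_eq (congrArg (fun x => x = F) (by unfold Stack.f; rfl))
  unfold prob
  rw [div_mul_cancel₀ _ h0, h1]

theorem div_fact {n : ℕ} {a b p : ℝ} (h : a * (p * (n.factorial : ℝ)) ^ 4 ≤ b * (n.factorial : ℝ) ^ 4) :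
    a * p ^ 4 ≤ b := by
  have h0 : (0 : ℝ) < (n.factorial : ℝ) ^ 4 := by
    have : (0 : ℝ) < (n.factorial : ℝ) := by exact_mod_cast n.factorial_pos
    positivity
  have h1 : (a * p ^ 4) * (n.factorial : ℝ) ^ 4 ≤ b * (n.factorial : ℝ) ^ 4 := by
    calc (a * p ^ 4) * (n.factorial : ℝ) ^ 4 = a * (p * (n.factorial : ℝ)) ^ 4 := by ring
      _ ≤ _ := h
  exact le_of_mul_le_mul_right h1 h0

theorem prob_nonneg {N n : ℕ} (D : Stack N n) (F : ℤ[T;T⁻¹]) : 0 ≤ prob D F := by
  unfold prob; positivity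

theorem prob_le_one {N n : ℕ} (D : Stack N n) (F : ℤ[T;T⁻¹]) : prob D F ≤ 1 := by
  have h0 : (0 : ℝ) < (n.factorial : ℝ) := by exact_mod_cast n.factorial_pos
  have h1 : (TT D F : ℝ) ≤ (n.factorial : ℝ) := by exact_mod_cast TT_le D F
  rw [prob_eq] at h1
  by_contra h
  rw [not_le] at h
  nlinarith

open Classical in
/-- There is an absolute constant `C` such that for every Laurent polynomial `F`, for instance `F = 1`, the
polynomial of the trivial knotoid:

* (stackings) if an open curve with `N` crossings consists of `n` consecutive arcs, any two of which cross at most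
  once, and the arcs are put at random heights, then the knotoid diagram has the normalised bracket `F` with a
  probability `p` with `N ^ 3 p ^ 4 ≤ C n ^ 5`;
* (open torus knot projections) let `k` be prime to `n + 1`, `2 ≤ k`, `2 k < n + 1`: there are stacks which
  describe the star polygon `{(n + 1)/k}` without one edge; each of them has exactly `(n - 1) (k - 1)` crossings,
  and `(k - 1) ^ 3 p ^ 4 ≤ C n ^ 2`;
* (open petal diagrams) for `n = 2 m ≥ 4` and `k = m` this probability is at most `(C / n) ^ (1/4)`;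
* (random open polygons) every open polygon with its vertices on a circle is described by a stack; if the
  vertices `r 0, …, r n` are a random permutation of `n + 1` points of a circle and the `n` edges are put
  at random heights, then the knotoid diagram has the normalised bracket `F` with a probability at most
  `(C / n) ^ (1/4)`. -/
theorem result : ∃ C : ℝ, 0 < C ∧ ∀ F : ℤ[T;T⁻¹],
    (∀ (N n : ℕ) (D : Stack N n), (N : ℝ) ^ 3 * prob D F ^ 4 ≤ C * (n : ℝ) ^ 5) ∧
    (∀ (n k : ℕ) (h : Nat.Coprime k (n + 1)), 2 ≤ k → 2 * k < n + 1 →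
      (∃ (N : ℕ) (D : Stack N n), IsOpenPolygon (star (n + 1) k h) D) ∧
      ∀ (N : ℕ) (D : Stack N n), IsOpenPolygon (star (n + 1) k h) D →
        N = (n - 1) * (k - 1) ∧ ((k : ℝ) - 1) ^ 3 * prob D F ^ 4 ≤ C * (n : ℝ) ^ 2) ∧
    (∀ (m : ℕ) (h : Nat.Coprime m (2 * m + 1)), 2 ≤ m →
      ∀ (N : ℕ) (D : Stack N (2 * m)), IsOpenPolygon (star (2 * m + 1) m h) D →
        N = (2 * m - 1) * (m - 1) ∧ (2 * (m : ℝ)) * prob D F ^ 4 ≤ C) ∧
    (∀ (n : ℕ) (r : Equiv.Perm (Fin (n + 1))), ∃ (N : ℕ) (D : Stack N n), IsOpenPolygon r D) ∧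
    (∀ (n : ℕ) (N : Equiv.Perm (Fin (n + 1)) → ℕ) (D : ∀ r : Equiv.Perm (Fin (n + 1)), Stack (N r) n),
      (∀ r, IsOpenPolygon r (D r)) →
        (n : ℝ) * (((univ.filter fun rh : Equiv.Perm (Fin (n + 1)) × Equiv.Perm (Fin n) =>
          kPoly (D rh.1).G ((D rh.1).signs rh.2) = F).card : ℝ) /
            (((n + 1).factorial : ℝ) * (n.factorial : ℝ))) ^ 4 ≤ C) := by
  obtain ⟨C1, hC1, h1⟩ := stack_main
  obtain ⟨C2, h2⟩ := Pool.Agent.W642.RS.poly
  have hstack : ∀ (F : ℤ[T;T⁻¹]) (N n : ℕ) (D : Stack N n),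
      (N : ℝ) ^ 3 * prob D F ^ 4 ≤ C1 * (n : ℝ) ^ 5 := by
    intro F N n D
    have h4 := h1 N n D F
    rw [prob_eq] at h4
    exact div_fact (by simpa using h4)
  have hstar : ∀ (F : ℤ[T;T⁻¹]) (n k : ℕ) (h : Nat.Coprime k (n + 1)), 2 ≤ k → 2 * k < n + 1 →
      ∀ (N : ℕ) (D : Stack N n), IsOpenPolygon (star (n + 1) k h) D →
        ((k : ℝ) - 1) ^ 3 * prob D F ^ 4 ≤ 3 * C1 * (n : ℝ) ^ 2 := by
    intro F n k h hk hkn N D hD
    have h3 := open_star_crossings hk hkn h D hD
    have h4 := hstack F N n D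
    have hn4 : (4 : ℝ) ≤ n := by
      have : 4 ≤ n := by omega
      exact_mod_cast this
    have h5 : (N : ℝ) = ((n : ℝ) - 1) * ((k : ℝ) - 1) := by
      rw [h3]
      push_cast [Nat.cast_sub (show 1 ≤ k by omega), Nat.cast_sub (show 1 ≤ n by omega)]
      ring
    have hk1 : (0 : ℝ) < (k : ℝ) - 1 := by
      have : (2 : ℝ) ≤ k := by exact_mod_cast hk
      linarith
    rw [h5] at h4
    have h6 : (3 / 4 * (n : ℝ)) ^ 3 ≤ ((n : ℝ) - 1) ^ 3 := by
      gcongr
      linarith
    set p := prob D F with hp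
    have h7 : (n : ℝ) ^ 3 * (((k : ℝ) - 1) ^ 3 * p ^ 4) ≤ (n : ℝ) ^ 3 * (3 * C1 * (n : ℝ) ^ 2) := by
      have h8 : (3 / 4 * (n : ℝ)) ^ 3 * (((k : ℝ) - 1) ^ 3 * p ^ 4) ≤ C1 * (n : ℝ) ^ 5 := by
        calc (3 / 4 * (n : ℝ)) ^ 3 * (((k : ℝ) - 1) ^ 3 * p ^ 4) ≤
              ((n : ℝ) - 1) ^ 3 * (((k : ℝ) - 1) ^ 3 * p ^ 4) := by gcongr
          _ = (((n : ℝ) - 1) * ((k : ℝ) - 1)) ^ 3 * p ^ 4 := by ring
          _ ≤ _ := h4
      have h9 : 0 ≤ (n : ℝ) ^ 3 * (((k : ℝ) - 1) ^ 3 * p ^ 4) := by positivity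
      nlinarith
    exact le_of_mul_le_mul_left h7 (by positivity)
  refine ⟨C1 + 3 * C1 + 1000 * C1 + (48 + 8 * (C2 ^ 4 + 110592 * C1)), by positivity,
    fun F => ⟨?_, ?_, ?_, exist, ?_⟩⟩
  · intro N n D
    refine (hstack F N n D).trans ?_
    have : 0 ≤ (3 * C1 + 1000 * C1 + (48 + 8 * ((C2 : ℝ) ^ 4 + 110592 * C1))) * (n : ℝ) ^ 5 := by
      positivity
    linarith
  · intro n k h hk hkn
    refine ⟨exist _ _, fun N D hD => ⟨open_star_crossings hk hkn h D hD, ?_⟩⟩
    refine (hstar F n k h hk hkn N D hD).trans ?_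
    have : 0 ≤ (C1 + 1000 * C1 + (48 + 8 * ((C2 : ℝ) ^ 4 + 110592 * C1))) * (n : ℝ) ^ 2 := by
      positivity
    linarith
  · intro m h hm N D hD
    refine ⟨open_star_crossings hm (by omega) h D hD, ?_⟩
    have h5 := hstar F (2 * m) m h hm (by omega) N D hD
    set p := prob D F with hp
    have hm2 : (2 : ℝ) ≤ m := by exact_mod_cast hm
    push_cast at h5
    have h6 : (2 * (m : ℝ)) ≤ 4 * ((m : ℝ) - 1) := by linarith
    have h7 : (2 * (m : ℝ)) ^ 3 ≤ 64 * ((m : ℝ) - 1) ^ 3 := by
      calc (2 * (m : ℝ)) ^ 3 ≤ (4 * ((m : ℝ) - 1)) ^ 3 := by gcongr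
        _ = _ := by ring
    have h8 : (2 * (m : ℝ)) ^ 2 * ((2 * (m : ℝ)) * p ^ 4) ≤ (2 * (m : ℝ)) ^ 2 * (192 * C1) := by
      calc (2 * (m : ℝ)) ^ 2 * ((2 * (m : ℝ)) * p ^ 4) = (2 * (m : ℝ)) ^ 3 * p ^ 4 := by ring
        _ ≤ 64 * ((m : ℝ) - 1) ^ 3 * p ^ 4 := by gcongr
        _ = 64 * (((m : ℝ) - 1) ^ 3 * p ^ 4) := by ring
        _ ≤ 64 * (3 * C1 * (2 * (m : ℝ)) ^ 2) := by gcongr
        _ = _ := by ring
    have h9 := le_of_mul_le_mul_left h8 (by positivity)
    have : 0 ≤ C1 + 3 * C1 + 808 * C1 + (48 + 8 * ((C2 : ℝ) ^ 4 + 110592 * C1)) := by positivity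
    linarith
  · intro n N D hD
    -- every value of the quotient is at most one
    have hfin : 0 < ((n + 1).factorial : ℝ) * (n.factorial : ℝ) := by
      have e1 : (0 : ℝ) < (n.factorial : ℝ) := by exact_mod_cast n.factorial_pos
      have e2 : (0 : ℝ) < ((n + 1).factorial : ℝ) := by exact_mod_cast (n + 1).factorial_pos
      positivity
    have hsum : ((univ.filter fun rh : Equiv.Perm (Fin (n + 1)) × Equiv.Perm (Fin n) =>
          kPoly (D rh.1).G ((D rh.1).signs rh.2) = F).card : ℝ) =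
          ∑ r : Equiv.Perm (Fin (n + 1)), prob (D r) F * (n.factorial : ℝ) := by
      have e0 : (n.factorial : ℝ) ≠ 0 := by exact_mod_cast n.factorial_ne_zero
      have e1 : (univ.filter fun rh : Equiv.Perm (Fin (n + 1)) × Equiv.Perm (Fin n) =>
          kPoly (D rh.1).G ((D rh.1).signs rh.2) = F).card =
          ∑ r : Equiv.Perm (Fin (n + 1)), (univ.filter fun h : Equiv.Perm (Fin n) =>
            kPoly (D r).G ((D r).signs h) = F).card := by
        simp only [card_filter]
        rw [Fintype.sum_prod_type]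
      rw [e1]
      push_cast
      refine sum_congr rfl fun r _ => ?_
      unfold prob
      rw [div_mul_cancel₀ _ e0]
    rw [hsum]
    set f1 : ℝ := ((n + 1).factorial : ℝ) with hf1
    set f : ℝ := (n.factorial : ℝ) with hf
    have hf1p : 0 < f1 := by rw [hf1]; exact_mod_cast (n + 1).factorial_pos
    have hfp : 0 < f := by rw [hf]; exact_mod_cast n.factorial_pos
    have hcardP : ((univ : Finset (Equiv.Perm (Fin (n + 1)))).card : ℝ) = f1 := by
      rw [hf1, card_univ, Fintype.card_perm, Fintype.card_fin]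
    have hle1 : (∑ r : Equiv.Perm (Fin (n + 1)), prob (D r) F * f) / (f1 * f) ≤ 1 := by
      rw [div_le_one (by positivity)]
      calc _ ≤ ∑ _r : Equiv.Perm (Fin (n + 1)), 1 * f := by
            refine sum_le_sum fun r _ => ?_
            have := prob_le_one (D r) F
            gcongr
        _ = f1 * f := by rw [sum_const, nsmul_eq_mul, hcardP, one_mul]
    have hge0 : 0 ≤ (∑ r : Equiv.Perm (Fin (n + 1)), prob (D r) F * f) / (f1 * f) := by
      apply div_nonneg _ (by positivity)
      exact sum_nonneg fun r _ => mul_nonneg (prob_nonneg _ _) hfp.le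
    rcases Nat.lt_or_ge n 48 with hn | hn
    · have e1 : (n : ℝ) ≤ 48 := by exact_mod_cast hn.le
      have e2 : ((∑ r : Equiv.Perm (Fin (n + 1)), prob (D r) F * f) / (f1 * f)) ^ 4 ≤ 1 :=
        pow_le_one₀ hge0 hle1
      have e3 : (n : ℝ) * ((∑ r : Equiv.Perm (Fin (n + 1)), prob (D r) F * f) / (f1 * f)) ^ 4 ≤
          48 * 1 := by gcongr
      have : 0 ≤ C1 + 3 * C1 + 1000 * C1 + 8 * ((C2 : ℝ) ^ 4 + 110592 * C1) := by positivity
      linarith
    have hn0 : (0 : ℝ) < n := by
      have : 0 < n := by omega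
      exact_mod_cast this
    have hn1 : (1 : ℝ) ≤ n := by
      have : 1 ≤ n := by omega
      exact_mod_cast this
    set K : ℝ := 110592 * C1 with hK
    have hKp : 0 < K := by rw [hK]; positivity
    set β : ℝ := √(√(K / n)) with hβ
    have hq0 : 0 < K / n := by positivity
    have hβ0 : 0 < β := Real.sqrt_pos.2 (Real.sqrt_pos.2 hq0)
    have hβ4 : β ^ 4 = K / n := by
      rw [hβ, show (4 : ℕ) = 2 * 2 by norm_num, pow_mul, Real.sq_sqrt (Real.sqrt_nonneg _),
        Real.sq_sqrt hq0.le]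
    set R : Finset (Equiv.Perm (Fin (n + 1))) := univ.filter fun r : Equiv.Perm (Fin (n + 1)) =>
      24 * (univ.filter fun ij : Fin (n + 1) × Fin (n + 1) =>
        ij.1 < ij.2 ∧ EdgesCross r ij.1 ij.2).card < (n + 1) ^ 2 with hR
    have hRc : (R.card : ℝ) ≤ (C2 : ℝ) / n * f1 := by
      have e1 := h2 (n + 1)
      have e2 : (R.card : ℝ) * ((n : ℝ) + 1) ≤ C2 * f1 := by
        rw [hf1, hR]
        exact_mod_cast e1
      rw [div_mul_eq_mul_div, le_div_iff₀ hn0]
      have : 0 ≤ (R.card : ℝ) := by positivity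
      nlinarith
    have hgood : ∀ r ∉ R, prob (D r) F ≤ β := by
      intro r hr
      rw [hR, mem_filter, not_and, not_lt] at hr
      have e1 := hr (mem_univ _)
      have e2 := closed_le r
      rw [← XX_open r (D r) (hD r), XX_card] at e2
      have e3 : n ^ 2 ≤ 48 * N r := by nlinarith
      have e4 : (n : ℝ) ^ 2 ≤ 48 * (N r : ℝ) := by exact_mod_cast e3
      have e5 : (n : ℝ) ^ 6 ≤ 110592 * (N r : ℝ) ^ 3 := by
        calc (n : ℝ) ^ 6 = ((n : ℝ) ^ 2) ^ 3 := by ring
          _ ≤ (48 * (N r : ℝ)) ^ 3 := by gcongr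
          _ = _ := by ring
      have e6 := hstack F (N r) n (D r)
      set p := prob (D r) F with hp
      have hp0 : 0 ≤ p := prob_nonneg _ _
      have e7 : (n : ℝ) ^ 5 * (n * p ^ 4) ≤ (n : ℝ) ^ 5 * K := by
        calc (n : ℝ) ^ 5 * (n * p ^ 4) = (n : ℝ) ^ 6 * p ^ 4 := by ring
          _ ≤ 110592 * (N r : ℝ) ^ 3 * p ^ 4 := by gcongr
          _ = 110592 * ((N r : ℝ) ^ 3 * p ^ 4) := by ring
          _ ≤ 110592 * (C1 * (n : ℝ) ^ 5) := by gcongr
          _ = _ := by rw [hK]; ring
      have e8 := le_of_mul_le_mul_left e7 (by positivity)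
      have e9 : p ^ 4 ≤ β ^ 4 := by
        rw [hβ4, le_div_iff₀ hn0]
        linarith
      exact (pow_le_pow_iff_left₀ hp0 hβ0.le (by norm_num)).1 e9
    have htot : ∑ r : Equiv.Perm (Fin (n + 1)), prob (D r) F * f ≤
        ((C2 : ℝ) / n + β) * (f1 * f) := by
      rw [← sum_filter_add_sum_filter_not univ (fun r => r ∈ R)]
      have e1 : ∑ r ∈ univ.filter (fun r => r ∈ R), prob (D r) F * f ≤ (C2 : ℝ) / n * f1 * f := by
        calc _ ≤ ∑ _r ∈ univ.filter (fun r => r ∈ R), 1 * f := by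
              refine sum_le_sum fun r _ => ?_
              have := prob_le_one (D r) F
              gcongr
          _ = (R.card : ℝ) * f := by
            rw [sum_const, nsmul_eq_mul, one_mul]
            congr 3
            ext r; simp
          _ ≤ _ := by gcongr
      have e2 : ∑ r ∈ univ.filter (fun r => ¬ r ∈ R), prob (D r) F * f ≤ f1 * (β * f) := by
        calc _ ≤ ∑ _r ∈ univ.filter (fun r : Equiv.Perm (Fin (n + 1)) => ¬ r ∈ R), β * f := by
              refine sum_le_sum fun r hr => ?_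
              have := hgood r (mem_filter.1 hr).2
              gcongr
          _ = ((univ.filter (fun r : Equiv.Perm (Fin (n + 1)) => ¬ r ∈ R)).card : ℝ) * (β * f) := by
            rw [sum_const, nsmul_eq_mul]
          _ ≤ f1 * (β * f) := by
            gcongr
            rw [← hcardP]
            exact_mod_cast card_le_univ _
      calc _ ≤ (C2 : ℝ) / n * f1 * f + f1 * (β * f) := add_le_add e1 e2
        _ = _ := by ring
    have hquot : (∑ r : Equiv.Perm (Fin (n + 1)), prob (D r) F * f) / (f1 * f) ≤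
        (C2 : ℝ) / n + β := by
      rw [div_le_iff₀ (by positivity)]
      exact htot
    set a : ℝ := (C2 : ℝ) / n with ha
    have ha0 : 0 ≤ a := by rw [ha]; positivity
    have h9 : ((∑ r : Equiv.Perm (Fin (n + 1)), prob (D r) F * f) / (f1 * f)) ^ 4 ≤ (a + β) ^ 4 := by
      gcongr
    have h10 : (a + β) ^ 4 ≤ 8 * (a ^ 4 + β ^ 4) := by
      have e1 : (a + β) ^ 2 ≤ 2 * (a ^ 2 + β ^ 2) := by linarith [sq_nonneg (a - β)]
      have e2 : (a ^ 2 + β ^ 2) ^ 2 ≤ 2 * (a ^ 4 + β ^ 4) := by
        linarith [sq_nonneg (a ^ 2 - β ^ 2)]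
      calc (a + β) ^ 4 = ((a + β) ^ 2) ^ 2 := by ring
        _ ≤ (2 * (a ^ 2 + β ^ 2)) ^ 2 := by gcongr
        _ = 4 * (a ^ 2 + β ^ 2) ^ 2 := by ring
        _ ≤ 4 * (2 * (a ^ 4 + β ^ 4)) := by gcongr
        _ = _ := by ring
    have h11 : (n : ℝ) * (8 * (a ^ 4 + β ^ 4)) ≤ 8 * ((C2 : ℝ) ^ 4 + K) := by
      rw [hβ4, ha]
      have e1 : (n : ℝ) * ((C2 : ℝ) / n) ^ 4 = (C2 : ℝ) ^ 4 / (n : ℝ) ^ 3 := by field_simp
      have e2 : (n : ℝ) * (K / n) = K := by field_simp
      have e3 : (C2 : ℝ) ^ 4 / (n : ℝ) ^ 3 ≤ (C2 : ℝ) ^ 4 := by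
        apply div_le_self (by positivity)
        exact one_le_pow₀ hn1
      calc (n : ℝ) * (8 * (((C2 : ℝ) / n) ^ 4 + K / n)) =
            8 * ((n : ℝ) * ((C2 : ℝ) / n) ^ 4 + (n : ℝ) * (K / n)) := by ring
        _ ≤ _ := by rw [e1, e2]; linarith
    calc _ ≤ (n : ℝ) * (8 * (a ^ 4 + β ^ 4)) := by
          gcongr
          exact h9.trans h10
      _ ≤ 8 * ((C2 : ℝ) ^ 4 + K) := h11
      _ ≤ _ := by
        have : 0 ≤ C1 + 3 * C1 + 1000 * C1 + 48 := by positivity
        linarith

end Pool.Agent.Results.MP_79b4ff_gt.RandomOpenPolygons
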