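import Pool.Agent.U963.OB.Last

/-!
# The bracket detects the trivial knotoid among the open closures of 3-braids

Diagrams (starting library `Pool.Agent.H891R2.Jones.Diagram`): `Diagram.fPoly` is the normalised bracket
`f = (-A^{-3})^{w(D)} ⟨D⟩ ∈ ℤ[A, A⁻¹]` (`A = T 1`), `Outer m` the part of an oriented diagram outside a box through
which `m` strands run.  `Letter 3` are the letters `σ_1^{±1}, σ_2^{±1}`, `dia O w` is the diagram with the braid
word `w` in the box of `O` (read from the bottom to the top), `braidClosure 2` the outside for the usual
closure of 2-braids, `powW w n` the `n`-th power of a word.  `IsKnotoid D` (starting library
`Pool.Agent.H832R3.TW.Defs`) says that `D` is a knotoid diagram, which may have closed components.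

New definitions (`Pool.Agent.U963.KN.Defs`, `Pool.Agent.U963.OB.Defs`):
* `openBraid p q k`: the outside for the open closure of type `(p, q, k)`: the tail is the lower end number `p`, the
  head the upper end number `q` of the box, and the two closing arcs, from the two other upper ends around
  the box to the two other lower ends, cross each other `|k|` times;
* `SameBraid w w'`: the words `w`, `w'` represent the same element of the braid group `B_3`;
* `Unknotted w`: `w` is conjugate in `B_3` to `σ_1 σ_2`, `σ_1⁻¹ σ_2⁻¹` or `σ_1 σ_2⁻¹`;
* `slide p q k w`: the word in the box after the crossings of the closing arcs have been slid into the box;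
* `Listed p q k w`: `w` is in the explicit list of the braids whose open closure is visibly trivial.

The open closures are the knotoid diagrams which wind monotonically around a point of the sphere and make at
least two and less than three full turns.  If `(p, q) ≠ (1, 1)`, then the crossings of the closing arcs can be slid
into the box.  For the braids in the list the crossings cancel after a slide along the closing arcs
(`(0, 2)`, `(2, 0)`), or cancel after the removal of one loop by a Reidemeister move of the first kind
(`(0, 1)`, `(1, 0)`, `(1, 2)`, `(2, 1)`), or two such moves remove all crossings (`(1, 1)` and `k = ± 1`), or the
closure is of knot type and is the closed braid `σ_1^{±1} σ_2^{±1}` (`p = q`).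

Proof.  The bracket of the closure of `w` is a linear function of the five coefficients of `w` in the
Temperley–Lieb algebra.  The parity of their exponents splits the equation `f = 1` into two equations.
Together with the unitarity of the two-dimensional representation (for the involution `A ↦ A⁻¹`) and the
determinant these determine the coefficients: in most cases `(1 + d x)(1 + d x̄) = 1`, so that `1 + d x` is a
unit of the ring of Laurent polynomials, for the type `(1, 1, k)` an equation `x (1 - x) = y ȳ` with
`x = x̄`, so that `|y| < 1` on the circle and `y = 0`.  The representation is faithful on `B_3` (together with the
exponent sum).  For `p = q` the trace at `A² = i` is `3` or `1`, and the matrices in `SL_2(ℤ)` with this trace are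
conjugate to standard ones.
-/

set_option autoImplicit false

namespace Pool.Agent.Results.MP_79b4ff_gt.ThreeBraids

open Pool.Agent.H891R2.Jones Pool.Agent.W639.RB Pool.Agent.Y463.SK Pool.Agent.U963.OB
open Pool.Agent.H832R3.TW (IsKnotoid)

/-- All open closures of words `w` in the generators of the braid group on three strands, with any number of
crossings between the closing arcs, are knotoid diagrams, and their normalised bracket polynomial is `1` if
and only if `w` is in the explicit list of braids with visibly trivial closure. -/
theorem result (p q : Fin 3) (k : ℤ) (w : List (Letter 3)) :
    IsKnotoid (dia (openBraid p q k) w) ∧ ((dia (openBraid p q k) w).fPoly = 1 ↔ Listed p q k w) :=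
  ⟨ob_knotoid p q k w, main p q k w⟩

end Pool.Agent.Results.MP_79b4ff_gt.ThreeBraids
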